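import Pool.Agent.Lib.MP_6e5bed_ag_SP.Final
import Pool.Agent.Lib.MP_6e5bed_ag_BI.TF

set_option autoImplicit false

/-!
# Comparison of the noncommutative motives of two coherent algebras with the same centres at the
isolated points

Let `k` be any field, and let `Γ` and `Γ'` be graded `k`-algebras which are finitely generated
modules over the central subalgebras generated by the elements `x_0, …, x_n`, respectively
`x_0, …, x_n'`, of degree one. Let `X = RΓ(Pⁿ, End(Γ~ ⊕ Γ~(1) ⊕ … ⊕ Γ~(n)))` (it is derived Morita
equivalent to the dg category of perfect complexes of modules over the coherent sheaf of algebras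
`Γ~`), and `X'` in the same way, and assume that `X` and `X'` are smooth and proper.

A simple quotient `π : Γ → Q` of an algebra `Γ ⊗ k(z)`, `z` a point of `Pⁿ`, is called isolated if
its kernel is annihilated from both sides by a homogeneous element of `Γ` which is not in the kernel.
(For an order this is the case for the generic point. In general this means that the
algebra `Γ~` is near the point of its spectrum an order in a simple algebra.)

Let `Y_a` be any family of projective varieties over `k` with the function fields `M_a`, for which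
the dg algebras `RΓ(Y_a, End(O ⊕ O(1) ⊕ … ⊕ O(m_a)))` (derived Morita equivalent to
`perf_dg(Y_a)`) are smooth and proper. Let `P_s` and `P'_s`, `s ∈ ι`, `ι` finite, be different
isolated simple quotients of `Γ` and of `Γ'`, such that the centres of `P_s` and `P'_s` are
isomorphic over `k` to the same field `K_s` and such that the centres of all the other simple
quotients embed over `k` into fields `M_a` which are finite over them. Then the motives of `X` and
`X'` are isomorphic modulo the morphisms which factor through the motives of the `Y_a` and the unit: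
there are `f : U X ⟶ U X'` and `g : U X' ⟶ U X` such that `1 - f g` and `1 - g f` are finite sums of
compositions through these motives. If all the `U Y_a` are Kimura-finite, then `U X` is
Kimura-finite if and only if `U X'` is Kimura-finite.

For example, for a smooth projective variety `V` of dimension `d` over a perfect field, embedded in
a projective space, and an order `Γ~` in a simple algebra with the centre the function field of `V`,
for which `X` is smooth (noncommutative projective varieties), the hypotheses are satisfied for a
family of smooth projective varieties of dimensions `≤ d - 1` by a theorem of de Jong (1996). So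
`U X` and `U V` differ only by motives of varieties of smaller dimensions.
No condition is imposed on the singularities, on the ramification, on the torsion and on the
nilpotent elements of the sheaves of algebras.

The category of noncommutative Chow motives and Kimura-finiteness are defined in
`Lib/MP_6e5bed_ag_SP/NCMot.lean` and `Lib/MP_6e5bed_ag`; graded algebras, the sections of `Γ~` and
the Čech dg algebra are defined in `Lib/MP_6e5bed_ag_GG/TDef.lean`, the varieties in
`Lib/MP_6e5bed_ag_GV/VDef.lean`, points and simple quotients in `Lib/MP_6e5bed_ag_GP/PDef.lean`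
and `Lib/MP_6e5bed_ag_GP/VDef.lean`, and the algebra of endomorphisms, the isolated simple quotients
and `IsoMod` in `Lib/MP_6e5bed_ag_BI/TS.lean`.
-/

namespace Pool.Agent.Results.MP_6e5bed_ag.CentreComparison

open CategoryTheory MonoidalCategory Pool.Agent.MP_6e5bed_ag Pool.Agent.MP_6e5bed_ag_SP
  Pool.Agent.MP_6e5bed_ag_Tc
open Pool.Agent.MP_6e5bed_ag_Pn hiding IsoFam

universe u

theorem result (n n' : ℕ) (k Γ Γ' : Type u) [Field k] [Ring Γ] [Algebra k Γ]
    [Algebra (MvPolynomial (Fin (n + 1)) k) Γ] [IsScalarTower k (MvPolynomial (Fin (n + 1)) k) Γ]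
    [Ring Γ'] [Algebra k Γ'] [Algebra (MvPolynomial (Fin (n' + 1)) k) Γ']
    [IsScalarTower k (MvPolynomial (Fin (n' + 1)) k) Γ'] (𝒢 : ℕ → Submodule k Γ)
    (𝒢' : ℕ → Submodule k Γ') (h : IsGr n 𝒢) (h' : IsGr n' 𝒢') :
    HasModel k ∧ (∃ (T : Type u) (_ : Ring T) (_ : Algebra k T) (X : DG k T), IsREnd n 𝒢 X) ∧
    ∀ (J : Type (u + 1)) (m : J → ℕ) (M : J → Type u) [∀ a, Field (M a)] [∀ a, Algebra k (M a)]
      (y : ∀ a, Fin (m a + 1) → (M a)ˣ) (S : J → Type u) [∀ a, Ring (S a)]
      [∀ a, Algebra k (S a)] (Y : ∀ a, DG k (S a)) (hY : ∀ a, SmPr (Y a)),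
      (∀ a, IsVar (y a) (Y a)) →
    ∀ (ι : Type) [Finite ι] (K : ι → Type u) [∀ s, Field (K s)] [∀ s, Algebra k (K s)]
      (P : ι → SQuo n k Γ) (P' : ι → SQuo n' k Γ'), IsoFam 𝒢 M K P → IsoFam 𝒢' M K P' →
    ∀ (T T' : Type u) [Ring T] [Algebra k T] [Ring T'] [Algebra k T'] (X : DG k T)
      (X' : DG k T') (hX : SmPr X) (hX' : SmPr X'), IsREnd n 𝒢 X → IsREnd n' 𝒢' X' →
    ∀ (C : Type (u + 1)) [Category.{u + 1} C] [MonoidalCategory C] [SymmetricCategory C]
      [Preadditive C] [MonoidalPreadditive C] [Linear ℚ C] (H : NCMot k C),
      IsoMod (fun a => H.U (Y a) (hY a)) (H.U X hX) (H.U X' hX') ∧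
      ((∀ a, KimuraFinite (H.U (Y a) (hY a))) →
        (KimuraFinite (H.U X hX) ↔ KimuraFinite (H.U X' hX'))) :=
  ⟨hasModel k, exists_rend h,
    fun _ _ _ _ _ _ _ _ _ _ hY hV _ _ _ _ _ _ _ hP hP' _ _ _ _ _ _ _ _ hX hX' hR hR' _ _ _ _
      _ _ _ H => main H h h' hY hV hP hP' hX hX' hR hR'⟩

end Pool.Agent.Results.MP_6e5bed_ag.CentreComparison
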