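import Pool.Agent.Lib.MP_6e5bed_ag_GV.VCe
import Pool.Agent.Lib.MP_6e5bed_ag_SP.Final
import Pool.Agent.Lib.MP_6e5bed_ag_VT.VFin

set_option autoImplicit false

/-!
# Noncommutative motives of coherent algebras are direct summands of motives of varieties

Let `k` be any field and `Γ` a graded `k`-algebra which is a finitely generated module over the
central subalgebra generated by the elements `x_0, …, x_n` of degree one. Let `X` be the Čech dg
algebra `RΓ(Pⁿ, Γ~)` of the coherent sheaf of algebras `Γ~`, and assume that `X` is smooth and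
proper.

Let `Y_a` be any family of projective varieties over `k` with the function fields `M_a`
(`Y_a ⊆ P^{m_a}` is the closure of a point with the coordinates `y_0, …, y_{m_a}`, all different
from zero, in `M_a`), for which the dg algebras `RΓ(Y_a, End(O ⊕ O(1) ⊕ … ⊕ O(m_a)))` (they are
derived Morita equivalent to `perf_dg(Y_a)`) are smooth and proper. Suppose that for every point
`z` of `Pⁿ` one of the following conditions holds.

* (A) `k[x_0, …, x_n]` embeds into `Γ`, and the algebra `Γ ⊗ k(z)` has at most one simple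
  quotient, and its centre is purely inseparable over `k(z)`.
* (B) For all the points `b` in the closure of `z`, the centres of the simple quotients of the
  algebra `Γ ⊗ k(b)` embed over `k` into fields `M_a` which are finite over them.

Then the noncommutative motive of `X` is a direct summand of a finite direct sum of unit objects
and of the noncommutative motives of the varieties `Y_a`; so it is Kimura-finite if those of the
varieties `Y_a` are.

If `k` is perfect, then by a theorem of de Jong (1996) every finitely generated field over `k` is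
contained in a finite extension which is the function field of a smooth projective variety, so the
condition (B) is satisfied for all points by a family of smooth projective varieties of dimensions
`≤ n`. No condition is imposed on the singularities, on the ramification, on the torsion and on the
nilpotent elements of the sheaf of algebras. For an order over `Pⁿ` the condition (A) holds at the
generic point, and only varieties of the dimensions `≤ n - 1` are needed. The dg category of perfect
complexes of `Γ~`-modules is `RΓ(Pⁿ, End(Γ~ ⊕ Γ~(1) ⊕ … ⊕ Γ~(n)))`, and so it is covered by the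
theorem.

The category of noncommutative Chow motives and Kimura-finiteness are defined in
`Lib/MP_6e5bed_ag_SP/NCMot.lean` and `Lib/MP_6e5bed_ag`; graded algebras, the sections of `Γ~` and
the Čech dg algebra are defined in `Lib/MP_6e5bed_ag_GG/TDef.lean`, the varieties in
`Lib/MP_6e5bed_ag_GV/VDef.lean`, the conditions at the points in `Lib/MP_6e5bed_ag_GP/PDef.lean` and
`Lib/MP_6e5bed_ag_GP/VDef.lean`.
-/

namespace Pool.Agent.Results.MP_6e5bed_ag.CommutativeSummands

open CategoryTheory MonoidalCategory Pool.Agent.MP_6e5bed_ag Pool.Agent.MP_6e5bed_ag_SP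
  Pool.Agent.MP_6e5bed_ag_Pn

universe u

theorem result (n : ℕ) (k Γ : Type u) [Field k] [Ring Γ] [Algebra k Γ]
    [Algebra (MvPolynomial (Fin (n + 1)) k) Γ] [IsScalarTower k (MvPolynomial (Fin (n + 1)) k) Γ]
    (𝒢 : ℕ → Submodule k Γ) (h : IsGr n 𝒢) :
    HasModel k ∧
    (∃ (T : Type u) (_ : Ring T) (_ : Algebra k T) (X : DG k T), IsRGam n 𝒢 X) ∧
    (∀ (m : ℕ) (M : Type u) [Field M] [Algebra k M] (y : Fin (m + 1) → Mˣ), (∃ j, y j = 1) →
      IntermediateField.adjoin k (Set.range fun j => (y j : M)) = ⊤ →
      ∃ (T : Type u) (_ : Ring T) (_ : Algebra k T) (Y : DG k T), IsVar y Y) ∧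
    ∀ (J : Type (u + 1)) (m : J → ℕ) (M : J → Type u) [∀ a, Field (M a)] [∀ a, Algebra k (M a)]
      (y : ∀ a, Fin (m a + 1) → (M a)ˣ) (S : J → Type u) [∀ a, Ring (S a)]
      [∀ a, Algebra k (S a)] (Y : ∀ a, DG k (S a)) (hY : ∀ a, SmPr (Y a)),
      (∀ a, IsVar (y a) (Y a)) → CenFam n k Γ M →
    ∀ (T : Type u) [Ring T] [Algebra k T] (X : DG k T) (hX : SmPr X), IsRGam n 𝒢 X →
    ∀ (C : Type (u + 1)) [Category.{u + 1} C] [MonoidalCategory C] [SymmetricCategory C]
      [Preadditive C] [MonoidalPreadditive C] [Linear ℚ C] (H : NCMot k C),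
      (∃ (N N' : ℕ) (a : Fin N → J) (f : ∀ i, H.U X hX ⟶ H.U (Y (a i)) (hY (a i)))
        (g : ∀ i, H.U (Y (a i)) (hY (a i)) ⟶ H.U X hX) (f' : Fin N' → (H.U X hX ⟶ 𝟙_ C))
        (g' : Fin N' → (𝟙_ C ⟶ H.U X hX)),
        ∑ i, f i ≫ g i + ∑ i, f' i ≫ g' i = 𝟙 (H.U X hX)) ∧
      ((∀ a, KimuraFinite (H.U (Y a) (hY a))) → KimuraFinite (H.U X hX)) :=
  ⟨hasModel k, MP_6e5bed_ag_GG.exists_rgam h,
    fun _ _ _ _ _ hj hM => MP_6e5bed_ag_GG.exists_isVar hj hM,
    fun _ _ _ _ _ _ _ _ _ _ sY hY hc _ _ _ _ hX hR _ _ _ _ _ _ _ H =>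
      MP_6e5bed_ag_VT.main_v H h hR hX sY
        (fun a => by
          obtain ⟨Z, h1, h2, h3⟩ := MP_6e5bed_ag_GG.isVar_xt (hY a)
          exact ⟨Z, h1, h3, h2⟩) hc⟩

end Pool.Agent.Results.MP_6e5bed_ag.CommutativeSummands
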