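import Pool.Agent.Lib.MP_6e5bed_ag_WF.Sum

set_option autoImplicit false

/-!
# The identity principle for geometric noncommutative motives

Let `k` be any field. A noncommutative Chow motive `M` is called geometric if it is a direct summand
of the motive `U X` of a smooth and proper dg algebra `X = RΓ(Pⁿ, Γ~)`, where `Γ` is a graded
`k`-algebra which is a finitely generated module over the central subalgebra generated by the elements
`x_0, …, x_n` of degree one. For every field `L` over `k` there is the functor `M ↦ K_0(M_L)_ℚ` on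
noncommutative Chow motives, which maps `U A` to the Grothendieck group of the perfect dg modules
over `A ⊗ L`, tensored with `ℚ`. Let `M` be a geometric motive. The following four properties are
detected by the functors `K_0(-_L)_ℚ`, for all fields `L` over `k`, or for the centres `L` of the
simple quotients of the finite dimensional algebras `Γ ⊗ k(z)`, where `z` runs over the points of
`Pⁿ`, or for a single algebraically closed field `Ω` which contains `n` elements which are
algebraically independent over `k`; it is also sufficient that `Ω` is algebraically closed of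
infinite transcendence degree over the prime field, so `Ω = k = ℂ` is allowed.

* Let `u_a : N_a ⟶ M` be a family of morphisms of geometric motives. The identity of `M` is a finite
  sum of compositions `M ⟶ N_a ⟶ M` with the `u_a` if and only if the images of the
  `K_0(N_{a,L})_ℚ` generate `K_0(M_L)_ℚ`. (For infinite families `Ω` has to contain `n` elements
  which are algebraically independent over `k`.)
* `M` is Kimura-finite if and only if this holds for such a family with Kimura-finite `N_a`.
* A morphism `u : N ⟶ M` of geometric motives is an isomorphism if and only if the maps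
  `K_0(N_L)_ℚ → K_0(M_L)_ℚ` are bijective.
* An endomorphism `f` of `M` is nilpotent if and only if it acts locally nilpotently on the
  `K_0(M_L)_ℚ`.

In particular `M` is even, hence Kimura-finite, if `K_0(M_Ω)_ℚ` is finite dimensional for an
algebraically closed field `Ω` over `k` of infinite transcendence degree over the prime field.

No condition is imposed on the singularities, on the ramification, on the torsion and on the
nilpotent elements of the sheaves of algebras, nor on their centres.

The category of noncommutative Chow motives and Kimura-finiteness are defined in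
`Lib/MP_6e5bed_ag_SP/NCMot.lean` and `Lib/MP_6e5bed_ag`; graded algebras, the sections of `Γ~` and
the Čech dg algebra are defined in `Lib/MP_6e5bed_ag_GG/TDef.lean`, the functors `K_0(-_L)_ℚ`, the
centres and the fields `Ω` in `Lib/MP_6e5bed_ag_WF/KDef.lean`.
-/

namespace Pool.Agent.Results.MP_6e5bed_ag.ManinPrinciple

open CategoryTheory MonoidalCategory Pool.Agent.MP_6e5bed_ag Pool.Agent.MP_6e5bed_ag_SP
  Pool.Agent.MP_6e5bed_ag_Kf Pool.Agent.MP_6e5bed_ag_WF
open Pool.Agent.MP_6e5bed_ag_Pn hiding CenL

universe u

theorem result (n : ℕ) (k Γ : Type u) [Field k] [Ring Γ] [Algebra k Γ]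
    [Algebra (MvPolynomial (Fin (n + 1)) k) Γ] [IsScalarTower k (MvPolynomial (Fin (n + 1)) k) Γ]
    (𝒢 : ℕ → Submodule k Γ) (h : IsGr n 𝒢) :
    HasModel k ∧
    (∃ (T : Type u) (_ : Ring T) (_ : Algebra k T) (X : DG k T), IsRGam n 𝒢 X) ∧
    ∀ (C : Type (u + 1)) [Category.{u + 1} C] [MonoidalCategory C] [SymmetricCategory C]
      [Preadditive C] [MonoidalPreadditive C] [Linear ℚ C] (H : NCMot k C),
      (∀ (L : Type u) [Field L] [Algebra k L], Nonempty (K0Fun H.toNCData L)) ∧
      ∀ M : C, SumOf H.toNCData n 𝒢 M →
      (∀ (ι : Type (u + 1)) (N : ι → C) (u : ∀ a, N a ⟶ M), (∀ a, Geo H.toNCData (N a)) →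
        Det H.toNCData n (Finite ι) (fun L => CenL n k Γ L)
          (∃ (s : Finset ι) (v : ∀ a, M ⟶ N a), ∑ a ∈ s, v a ≫ u a = 𝟙 M)
          fun _ _ _ K => K.Gen u) ∧
      [KimuraFinite M,
        ∃ (ι : Type (u + 1)) (N : ι → C) (u : ∀ a, N a ⟶ M),
          (∀ a, Geo H.toNCData (N a) ∧ KimuraFinite (N a)) ∧
          ∀ (L : Type u) [Field L] [Algebra k L] (K : K0Fun H.toNCData L), CenL n k Γ L →
            K.Gen u,
        ∃ (ι : Type (u + 1)) (N : ι → C) (u : ∀ a, N a ⟶ M) (Ω : Type u) (_ : Field Ω)
          (_ : Algebra k Ω) (K : K0Fun H.toNCData Ω),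
          (∀ a, Geo H.toNCData (N a) ∧ KimuraFinite (N a)) ∧ UDom n (Finite ι) k Ω ∧
            K.Gen u].TFAE ∧
      (∀ (n' : ℕ) (Γ' : Type u) [Ring Γ'] [Algebra k Γ']
        [Algebra (MvPolynomial (Fin (n' + 1)) k) Γ']
        [IsScalarTower k (MvPolynomial (Fin (n' + 1)) k) Γ'] (𝒢' : ℕ → Submodule k Γ')
        (N : C) (u : N ⟶ M), IsGr n' 𝒢' → SumOf H.toNCData n' 𝒢' N →
        Det H.toNCData (max n n') True (fun L => CenL n k Γ L ∨ CenL n' k Γ' L) (IsIso u)
          fun _ _ _ K => K.Bij u) ∧
      (∀ f : End M, Det H.toNCData n True (fun L => CenL n k Γ L) (IsNilpotent f)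
          fun _ _ _ K => K.LocNil f) ∧
      ((∃ (Ω : Type u) (_ : Field Ω) (_ : Algebra k Ω) (K : K0Fun H.toNCData Ω), IsAlgClosed Ω ∧
        (∀ m : ℕ, ∃ t : Fin m → Ω, AlgebraicIndependent (⊥ : Subfield Ω) t) ∧
        Module.Finite ℚ (K.K.obj M)) → IsEven M) :=
  ⟨hasModel k, MP_6e5bed_ag_GG.exists_rgam h, fun _ _ _ _ _ _ _ H =>
    ⟨fun L _ _ => exists_k0fun H L, fun _ hM =>
      ⟨fun _ _ u hN => main_famM H h hM u hN, main_kfM H h hM,
        fun _ _ _ _ _ _ _ _ u h' hN => main_isoM H h hM u h' hN, fun f => main_nilM H h hM f,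
        fun ⟨Ω, _, _, K, hc, hk, hf⟩ => main_finM H h hM Ω K hc hk hf⟩⟩⟩

end Pool.Agent.Results.MP_6e5bed_ag.ManinPrinciple
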