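import Pool.Agent.Lib.MP_6e5bed_ag_GP.PFin
import Pool.Agent.Lib.MP_6e5bed_ag_GP.CorQ
import Pool.Agent.Lib.MP_6e5bed_ag_KC.KFinal

set_option autoImplicit false

/-!
# Kimura-finiteness of coherent sheaves of algebras on projective spaces

Let `k` be any field and `Γ` a graded `k`-algebra which is a finitely generated module over the
central subalgebra generated by the elements `x_0, …, x_n` of degree one. For a point `z` of the
projective space `Pⁿ` with the residue field `k(z)` consider the following conditions.

(A) The finite dimensional algebra `Γ ⊗ k(z)` has at most one maximal two-sided ideal, and the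
centre of the simple quotient is a purely inseparable extension of `k(z)`.

(B) The centre `Z` of every simple quotient of `Γ ⊗ k(z)` is dominated by a product of curves:
there are a field `M` which is an algebraic extension of `Z` and algebraically independent elements
`t_1, …, t_m` of `M` such that `M` is generated over `k` by elements each of which is algebraic over
`k` or over one of the fields `k(t_i)`.

Assume that for every point `z` of `Pⁿ` whose closure has at least the dimension two, either
`k[x_0, …, x_n]` embeds into `Γ` and (A) holds for `z`, or (B) holds for `z` and for all the points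
of at least the dimension two in the closure of `z`. There is a dg algebra `X = RΓ(Pⁿ, Γ~)`, the
Čech dg algebra of the coherent sheaf of algebras `Γ~`, and if `X` is smooth and proper, then the
noncommutative Chow motive of `X` with rational coefficients is Kimura-finite.

(For example, `n` may be arbitrary and `Γ~` an order on `Pⁿ` in a central simple algebra over the
field of rational functions, with any ramification: the condition (A) holds at the generic point
and at all the points where the order is an Azumaya algebra. It is required then that at every other
point `z` of at least the dimension two the reduction of the order is either of the type (A), or of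
the type (B) on the whole closure of `z`. Over a large field like the field of complex numbers, (B)
can hold for points of the dimension two only. If the dimension of the support of `Γ~` is at most
one, the condition is empty.)

The category of noncommutative Chow motives and Kimura-finiteness are defined in
`Lib/MP_6e5bed_ag_SP/NCMot.lean` and `Lib/MP_6e5bed_ag`; graded algebras, the property `InProd`, the
sections of `Γ~` and the Čech dg algebra are defined in `Lib/MP_6e5bed_ag_GG/TDef.lean`, the
conditions (A) and (B) in `Lib/MP_6e5bed_ag_GP/PDef.lean`.
-/

namespace Pool.Agent.Results.MP_6e5bed_ag.NCCoherentAlgebras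

open CategoryTheory MonoidalCategory Pool.Agent.MP_6e5bed_ag Pool.Agent.MP_6e5bed_ag_SP
  Pool.Agent.MP_6e5bed_ag_Pn

universe u

theorem result (n : ℕ) (k Γ : Type u) [Field k] [Ring Γ] [Algebra k Γ]
    [Algebra (MvPolynomial (Fin (n + 1)) k) Γ] [IsScalarTower k (MvPolynomial (Fin (n + 1)) k) Γ]
    (𝒢 : ℕ → Submodule k Γ) (h : IsGr n 𝒢) (hc : CenP n k Γ) :
    HasModel k ∧
    (∃ (T : Type u) (_ : Ring T) (_ : Algebra k T) (X : DG k T), IsRGam n 𝒢 X) ∧
    ∀ (T : Type u) [Ring T] [Algebra k T] (X : DG k T) (hX : SmPr X), IsRGam n 𝒢 X →
    ∀ (C : Type (u + 1)) [Category.{u + 1} C] [MonoidalCategory C] [SymmetricCategory C]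
      [Preadditive C] [MonoidalPreadditive C] [Linear ℚ C] (H : NCMot k C),
      KimuraFinite (H.U X hX) :=
  ⟨hasModel k, MP_6e5bed_ag_GG.exists_rgam h, fun _ _ _ _ hX hR _ _ _ _ _ _ _ H =>
    MP_6e5bed_ag_GP.kf_rgamP h hc hR hX H (AlgebraicClosure k)
      (MP_6e5bed_ag_GP.corP (AlgebraicClosure k))
      fun W hW => MP_6e5bed_ag_KC.kf_curve W hW⟩

end Pool.Agent.Results.MP_6e5bed_ag.NCCoherentAlgebras
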